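import Pool.Agent.RealClosed.Exists

/-!
# A dense subfield of the real closure of `ℚ(t)` in which `ℚ` is relatively algebraically closed
-/

open ArchimedeanClass

namespace Pool.Agent.Results.MP_9bb08e_al.DenseSubfield

universe u

/-- `K` is a real closure of the rational function field `ℚ(t)`, ordered so that `t` is infinitely
large: `K` is real closed, it is algebraic over its subfield `ℚ(t)`, and `t > n` for all natural
numbers `n` (in particular `t` is transcendental over `ℚ`). -/
structure IsRealClosureOfRatFunc (K : Type u) [Field K] [LinearOrder K] [IsStrictOrderedRing K]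
    (t : K) : Prop where
  realClosed : IsRealClosed K
  algebraic : Algebra.IsAlgebraic (IntermediateField.adjoin ℚ {t}) K
  infinite : ∀ n : ℕ, (n : K) < t

/-- A subfield `F` is dense in the ordered field `K`: every open interval of `K` meets `F`. -/
def IsDenseSubfield {K : Type u} [Field K] [LinearOrder K] (F : Subfield K) : Prop :=
  ∀ a b : K, a < b → ∃ f ∈ F, a < f ∧ f < b

/-- Every element of `F` that is algebraic over `ℚ` is rational. -/
def RatRelativelyAlgebraicallyClosed {K : Type u} [Field K] [CharZero K] (F : Subfield K) : Prop :=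
  ∀ x ∈ F, IsAlgebraic ℚ x → ∃ q : ℚ, (q : K) = x

theorem result :
    (∃ (K : Type) (_ : Field K) (_ : LinearOrder K) (_ : IsStrictOrderedRing K) (t : K),
      IsRealClosureOfRatFunc K t) ∧
    ∀ (K : Type u) [Field K] [LinearOrder K] [IsStrictOrderedRing K] (t : K),
      IsRealClosureOfRatFunc K t →
        ∃ F : Subfield K, IsDenseSubfield F ∧ RatRelativelyAlgebraicallyClosed F := by
  refine ⟨?_, ?_⟩
  · obtain ⟨K, i1, i2, i3, t, h1, h2, h3⟩ := Pool.Agent.RealClosed.exists_real_closure
    exact ⟨K, i1, i2, i3, t, ⟨h1, h3, h2⟩⟩
  · intro K _ _ _ t h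
    have hrc := h.realClosed
    have htpos : 0 < t := by simpa using h.infinite 0
    have ht : ArchimedeanClass.mk t < 0 := by
      rw [Pool.Agent.RealClosed.mk_lt_zero_iff]
      intro n
      rw [abs_of_pos htpos]
      exact h.infinite n
    exact Pool.Agent.RealClosed.exists_dense_subfield ht htpos h.algebraic

end Pool.Agent.Results.MP_9bb08e_al.DenseSubfield
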